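import Pool.Agent.E8helper30.RG.Stm2

/-!
# Project RG2: S_GR, greedy choice of chords
-/

set_option autoImplicit false

namespace Pool.Agent.E8helper8.RG

open Pool.Agent.E8helper30.RG
open scoped Classical

/-- `Reach` only depends on the chords with index `< κ` -/
theorem reach_congr {x y x' y' : ℕ → ℕ} {κ : ℕ} (hx : ∀ i < κ, x i = x' i)
    (hy : ∀ i < κ, y i = y' i) {a b m : ℕ} (h : Reach x y κ a b m) : Reach x' y' κ a b m := by
  induction h with
  | refl => exact Reach.refl _
  | up _ ih => exact Reach.up ih
  | down _ ih => exact Reach.down ih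
  | xy hi _ ih =>
    rw [hy _ hi]
    rw [hx _ hi] at ih
    exact Reach.xy hi ih
  | yx hi _ ih =>
    rw [hx _ hi]
    rw [hy _ hi] at ih
    exact Reach.yx hi ih

/-- the partner of a station -/
noncomputable def pt (x y : ℕ → ℕ) (K b : ℕ) : ℕ :=
  if h : ∃ i, i < K ∧ x i = b then y h.choose
  else if h : ∃ i, i < K ∧ y i = b then x h.choose else b

section

variable (x y : ℕ → ℕ) (K : ℕ) (hx : ∀ i < K, ∀ j < K, x i = x j → i = j)
  (hy : ∀ i < K, ∀ j < K, y i = y j → i = j) (hxy : ∀ i < K, ∀ j < K, x i ≠ y j)

include hx in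
theorem pt_x {i : ℕ} (hi : i < K) : pt x y K (x i) = y i := by
  have h : ∃ j, j < K ∧ x j = x i := ⟨i, hi, rfl⟩
  unfold pt
  rw [dif_pos h]
  rw [hx _ h.choose_spec.1 _ hi h.choose_spec.2]

include hy hxy in
theorem pt_y {i : ℕ} (hi : i < K) : pt x y K (y i) = x i := by
  have h0 : ¬ ∃ j, j < K ∧ x j = y i := by
    rintro ⟨j, hj, h⟩
    exact hxy j hj i hi h
  have h : ∃ j, j < K ∧ y j = y i := ⟨i, hi, rfl⟩
  unfold pt
  rw [dif_neg h0, dif_pos h]
  rw [hy _ h.choose_spec.1 _ hi h.choose_spec.2]

include hx hy hxy in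
theorem pt_pt (b : ℕ) : pt x y K (pt x y K b) = b := by
  by_cases h1 : ∃ i, i < K ∧ x i = b
  · obtain ⟨i, hi, rfl⟩ := h1
    rw [pt_x x y K hx hi, pt_y x y K hy hxy hi]
  · by_cases h2 : ∃ i, i < K ∧ y i = b
    · obtain ⟨i, hi, rfl⟩ := h2
      rw [pt_y x y K hy hxy hi, pt_x x y K hx hi]
    · have : pt x y K b = b := by
        unfold pt
        rw [dif_neg h1, dif_neg h2]
      rw [this, this]

/-- the balls -/
noncomputable def T (a : ℕ) : ℕ → Finset ℕ
  | 0 => {a, pt x y K a}
  | m + 1 => (((T a m ∪ (T a m).image (fun b => b + 1)) ∪ (T a m).image (fun b => b - 1)) ∪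
      (T a m).image (fun b => pt x y K (b + 1))) ∪ (T a m).image (fun b => pt x y K (b - 1))

theorem card_T (a m : ℕ) : (T x y K a m).card ≤ 2 * 5 ^ m := by
  induction m with
  | zero => exact (Finset.card_le_two).trans (by norm_num)
  | succ m ih =>
    have h1 : ∀ f : ℕ → ℕ, ((T x y K a m).image f).card ≤ (T x y K a m).card :=
      fun f => Finset.card_image_le
    have h2 : (T x y K a (m + 1)).card ≤ 5 * (T x y K a m).card := by
      rw [T]
      refine (Finset.card_union_le _ _).trans ?_
      have a1 := (Finset.card_union_le (((T x y K a m) ∪ (T x y K a m).image (fun b => b + 1)) ∪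
        (T x y K a m).image (fun b => b - 1)) ((T x y K a m).image (fun b => pt x y K (b + 1))))
      have a2 := (Finset.card_union_le ((T x y K a m) ∪ (T x y K a m).image (fun b => b + 1))
        ((T x y K a m).image (fun b => b - 1)))
      have a3 := (Finset.card_union_le (T x y K a m) ((T x y K a m).image (fun b => b + 1)))
      have b1 := h1 (fun b => b + 1)
      have b2 := h1 (fun b => b - 1)
      have b3 := h1 (fun b => pt x y K (b + 1))
      have b4 := h1 (fun b => pt x y K (b - 1))
      omega
    rw [pow_succ]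
    omega

theorem mem_T_succ (a m b : ℕ) : b ∈ T x y K a (m + 1) ↔ b ∈ T x y K a m ∨
    (∃ c ∈ T x y K a m, c + 1 = b) ∨ (∃ c ∈ T x y K a m, c - 1 = b) ∨
    (∃ c ∈ T x y K a m, pt x y K (c + 1) = b) ∨ (∃ c ∈ T x y K a m, pt x y K (c - 1) = b) := by
  rw [T]
  simp only [Finset.mem_union, Finset.mem_image, or_assoc]

include hx hy hxy in
theorem pt_T (a m b : ℕ) (hb : b ∈ T x y K a m) : pt x y K b ∈ T x y K a m := by
  induction m generalizing b with
  | zero =>
    rw [T, Finset.mem_insert, Finset.mem_singleton] at hb ⊢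
    rcases hb with rfl | rfl
    · exact Or.inr rfl
    · exact Or.inl (pt_pt x y K hx hy hxy _)
  | succ m ih =>
    rw [mem_T_succ] at hb ⊢
    rcases hb with hb | ⟨c, hc, rfl⟩ | ⟨c, hc, rfl⟩ | ⟨c, hc, rfl⟩ | ⟨c, hc, rfl⟩
    · exact Or.inl (ih b hb)
    · exact Or.inr (Or.inr (Or.inr (Or.inl ⟨c, hc, rfl⟩)))
    · exact Or.inr (Or.inr (Or.inr (Or.inr ⟨c, hc, rfl⟩)))
    · exact Or.inr (Or.inl ⟨c, hc, (pt_pt x y K hx hy hxy _).symm⟩)
    · exact Or.inr (Or.inr (Or.inl ⟨c, hc, (pt_pt x y K hx hy hxy _).symm⟩))

theorem T_mono (a : ℕ) {m r : ℕ} (h : m ≤ r) : T x y K a m ⊆ T x y K a r := by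
  induction h with
  | refl => exact fun _ h => h
  | step _ ih => exact fun b hb => (mem_T_succ x y K a _ b).2 (Or.inl (ih hb))

include hx hy hxy in
theorem reach_T {a b m : ℕ} (h : Reach x y K a b m) : b ∈ T x y K a m := by
  induction h with
  | refl =>
    rw [T]
    exact Finset.mem_insert_self _ _
  | up _ ih => exact (mem_T_succ x y K a _ _).2 (Or.inr (Or.inl ⟨_, ih, rfl⟩))
  | down _ ih => exact (mem_T_succ x y K a _ _).2 (Or.inr (Or.inr (Or.inl ⟨_, ih, rfl⟩)))
  | xy hi _ ih =>
    rw [← pt_x x y K hx hi]
    exact pt_T x y K hx hy hxy _ _ _ ih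
  | yx hi _ ih =>
    rw [← pt_y x y K hy hxy hi]
    exact pt_T x y K hx hy hxy _ _ _ ih

end

theorem t_GR : S_GR := by
  intro N K r
  induction K with
  | zero =>
    intro _
    exact ⟨id, id, by simp, by simp, by simp, by simp, by simp⟩
  | succ K ih =>
    intro hN
    obtain ⟨x, y, h1, hx, hy, hxy, hr⟩ := ih (by omega)
    -- the used stations
    let W : Finset ℕ := (Finset.range K).image x ∪ (Finset.range K).image y
    have hW : W.card ≤ 2 * K := by
      refine (Finset.card_union_le _ _).trans ?_
      have a1 : ((Finset.range K).image x).card ≤ K := Finset.card_image_le.trans (by simp)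
      have a2 : ((Finset.range K).image y).card ≤ K := Finset.card_image_le.trans (by simp)
      omega
    have hU : 2 * 5 ^ r < (Finset.range N \ W).card := by
      have := Finset.le_card_sdiff W (Finset.range N)
      rw [Finset.card_range] at this
      omega
    obtain ⟨a, ha⟩ : (Finset.range N \ W).Nonempty := by
      rw [← Finset.card_pos]
      omega
    obtain ⟨b, hb, hbT⟩ : ∃ b ∈ Finset.range N \ W, b ∉ T x y K a r := by
      by_contra hcon
      push Not at hcon
      have := Finset.card_le_card (show Finset.range N \ W ⊆ T x y K a r from hcon)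
      have := card_T x y K a r
      omega
    rw [Finset.mem_sdiff, Finset.mem_range] at ha hb
    have hab : a ≠ b := by
      rintro rfl
      exact hbT (T_mono x y K a (Nat.zero_le r) (reach_T x y K hx hy hxy (Reach.refl a)))
    have hax : ∀ i < K, x i ≠ a ∧ y i ≠ a := by
      intro i hi
      constructor
      · rintro rfl
        exact ha.2 (Finset.mem_union_left _ (Finset.mem_image_of_mem _ (Finset.mem_range.2 hi)))
      · rintro rfl
        exact ha.2 (Finset.mem_union_right _ (Finset.mem_image_of_mem _ (Finset.mem_range.2 hi)))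
    have hbx : ∀ i < K, x i ≠ b ∧ y i ≠ b := by
      intro i hi
      constructor
      · rintro rfl
        exact hb.2 (Finset.mem_union_left _ (Finset.mem_image_of_mem _ (Finset.mem_range.2 hi)))
      · rintro rfl
        exact hb.2 (Finset.mem_union_right _ (Finset.mem_image_of_mem _ (Finset.mem_range.2 hi)))
    have ex : ∀ i, i ≠ K → Function.update x K a i = x i := fun i hi =>
      Function.update_of_ne hi _ _
    have ey : ∀ i, i ≠ K → Function.update y K b i = y i := fun i hi =>
      Function.update_of_ne hi _ _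
    have exK : Function.update x K a K = a := Function.update_self _ _ _
    have eyK : Function.update y K b K = b := Function.update_self _ _ _
    refine ⟨Function.update x K a, Function.update y K b, ?_, ?_, ?_, ?_, ?_⟩
    · intro i hi
      rcases Nat.lt_succ_iff_lt_or_eq.1 hi with h | rfl
      · rw [ex i (by omega), ey i (by omega)]
        exact h1 i h
      · rw [exK, eyK]
        exact ⟨ha.1, hb.1⟩
    · intro i hi j hj h
      rcases Nat.lt_succ_iff_lt_or_eq.1 hi with hi' | rfl
      · rcases Nat.lt_succ_iff_lt_or_eq.1 hj with hj' | rfl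
        · rw [ex i (by omega), ex j (by omega)] at h
          exact hx i hi' j hj' h
        · rw [ex i (by omega), exK] at h
          exact absurd h (hax i hi').1
      · rcases Nat.lt_succ_iff_lt_or_eq.1 hj with hj' | rfl
        · rw [ex j (by omega), exK] at h
          exact absurd h.symm (hax j hj').1
        · rfl
    · intro i hi j hj h
      rcases Nat.lt_succ_iff_lt_or_eq.1 hi with hi' | rfl
      · rcases Nat.lt_succ_iff_lt_or_eq.1 hj with hj' | rfl
        · rw [ey i (by omega), ey j (by omega)] at h
          exact hy i hi' j hj' h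
        · rw [ey i (by omega), eyK] at h
          exact absurd h (hbx i hi').2
      · rcases Nat.lt_succ_iff_lt_or_eq.1 hj with hj' | rfl
        · rw [ey j (by omega), eyK] at h
          exact absurd h.symm (hbx j hj').2
        · rfl
    · intro i hi j hj
      rcases Nat.lt_succ_iff_lt_or_eq.1 hi with hi' | rfl
      · rcases Nat.lt_succ_iff_lt_or_eq.1 hj with hj' | rfl
        · rw [ex i (by omega), ey j (by omega)]
          exact hxy i hi' j hj'
        · rw [ex i (by omega), eyK]
          exact (hbx i hi').1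
      · rcases Nat.lt_succ_iff_lt_or_eq.1 hj with hj' | rfl
        · rw [ey j (by omega), exK]
          exact fun h => (hax j hj').2 h.symm
        · rw [exK, eyK]
          exact hab
    · intro i hi m hm hreach
      rcases Nat.lt_succ_iff_lt_or_eq.1 hi with hi' | rfl
      · have h2 := reach_congr (x' := x) (y' := y) (fun j hj => ex j (by omega))
          (fun j hj => ey j (by omega)) hreach
        rw [ex i (by omega), ey i (by omega)] at h2
        exact hr i hi' m hm h2
      · have h2 := reach_congr (x' := x) (y' := y) (fun j hj => ex j (by omega))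
          (fun j hj => ey j (by omega)) hreach
        rw [exK, eyK] at h2
        exact hbT (T_mono x y _ a hm (reach_T x y _ hx hy hxy h2))

end Pool.Agent.E8helper8.RG
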